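import Pool.Agent.Helper14.TH7.StD

/-!
# Project TH (level `2 * 7^n`), module Uni: a symbol with zero plane functions is constant
-/

set_option autoImplicit false

namespace Pool.Agent.Helper70.TH7

open Pool.Agent.Helper14.TH7 Pool.Agent.Helper84.S7 Pool.Agent.Helper93.TLH
open Pool.Agent.Helper76.TH7 (PlH rYH edgeH HPlA7 HEdg7)
open Pool.Agent.Helper14.CV (Homog EqC act Tl StFar StFex)

private lemma un1 (n : ℕ) {a b c d : ℤ} (h : HTy a b (7 * c) d) :
    IsUnit (a : ZMod (7 ^ n)) ∧ IsUnit (d : ZMod (7 ^ n)) := by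
  have key : ∀ k : ℤ, IsCoprime k 7 → IsUnit (k : ZMod (7 ^ n)) := by
    intro k hk
    rw [ZMod.coe_int_isUnit_iff_isCoprime]
    push_cast
    exact IsCoprime.pow_left hk.symm
  rcases h with ⟨h, _⟩ | ⟨h, _⟩
  · exact ⟨key a ⟨d, -(b * c), by linear_combination h⟩, key d ⟨a, -(b * c), by linear_combination h⟩⟩
  · exact ⟨key a ⟨-3 * d, 1 + 3 * b * c, by linear_combination (-3) * h⟩,
      key d ⟨-3 * a, 1 + 3 * b * c, by linear_combination (-3) * h⟩⟩

private lemma dvd7 {n : ℤ} : (7 : ℤ) ∣ n ↔ (n : ZMod 7) = 0 :=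
  (ZMod.intCast_zmod_eq_zero_iff_dvd n 7).symm

private lemma cls8 : ∀ r s : ZMod 7,
    (r = 0 ∨ r - 2 * s = 0 ∨ r - 4 * s = 0 ∨ r + 2 * s = 0) ∨
      (2 * s = 0 ∨ 2 * s + 2 * r = 0 ∨ 2 * s + 4 * r = 0 ∨ 2 * s - 2 * r = 0) := by decide

private lemma mulT {a b c d : ℤ} (h : HTy a b c d) (α β γ δ : ℤ) (h1 : α * δ - β * γ = 1)
    (h2 : (2 : ℤ) ∣ γ) {A B C D : ℤ} (hA : A = a * α + b * γ) (hB : B = a * β + b * δ)
    (hC : C = c * α + d * γ) (hD : D = c * β + d * δ) : HTy A B C D := by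
  subst hA hB hC hD
  rcases h with ⟨h, h3⟩ | ⟨h, h3, h4, h5⟩
  · refine Or.inl ⟨by linear_combination (α * δ - β * γ) * h + h1, ?_⟩
    exact dvd_add (h3.mul_right _) (h2.mul_left _)
  · refine Or.inr ⟨by linear_combination (α * δ - β * γ) * h + 2 * h1, ?_, ?_, ?_⟩
    · exact dvd_add (h3.mul_right _) (h2.mul_left _)
    · exact dvd_add (h4.mul_right _) (h2.mul_left _)
    · exact dvd_add (h4.mul_right _) (h5.mul_right _)

/-- UNI. -/
theorem hUni (he : HEdg7) (ha : HPlA7) (hf : StFar) : TUni := by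
  have _ := ha
  intro R _ r s G hG hz
  have key : ∀ a b c d : ℤ, HTy a b (7 * c) d →
      G a (7 * c) = G b d ∧ G (a + 2 * b) (7 * c + 2 * d) = G b d ∧
        G (a + 4 * b) (7 * c + 4 * d) = G b d := by
    intro a b c d h
    have ha : IsUnit (a : ZMod (7 ^ r)) := (un1 r h).1
    have hd : IsUnit (d : ZMod (7 ^ s)) := (un1 s h).2
    have hp : PlH 0 a b c d ((b : ZMod (7 ^ r)) * (a : ZMod (7 ^ r))⁻¹)
        ((c : ZMod (7 ^ s)) * (d : ZMod (7 ^ s))⁻¹) := by
      refine ⟨by rwa [pow_zero, one_mul], ?_, ?_⟩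
      · rw [mul_assoc, ZMod.inv_mul_of_unit _ ha, mul_one]
      · rw [mul_assoc, ZMod.inv_mul_of_unit _ hd, mul_one]
    have e : ∀ (i : Fin 3), G (a + e3 i * b) (7 * c + e3 i * d) = G b d := by
      intro i
      have z0 : edgeH 0 1 (e3 i) 0 1 G ((b : ZMod (7 ^ r)) * (a : ZMod (7 ^ r))⁻¹)
          ((c : ZMod (7 ^ s)) * (d : ZMod (7 ^ s))⁻¹) = 0 :=
        congrFun (congrFun (hz i) ((b : ZMod (7 ^ r)) * (a : ZMod (7 ^ r))⁻¹))
          ((c : ZMod (7 ^ s)) * (d : ZMod (7 ^ s))⁻¹)
      have k0 := he R _ 0 r s G hG 1 (e3 i) 0 1 (Or.inl one_ne_zero) (Or.inr one_ne_zero) _ _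
        a b c d hp
      rw [z0] at k0
      have e0 : a * 1 + 7 ^ 0 * b * e3 i = a + e3 i * b := by ring
      have e1 : 7 * c * 1 + d * e3 i = 7 * c + e3 i * d := by ring
      have e2 : a * 0 + 7 ^ 0 * b * 1 = b := by ring
      have e4 : 7 * c * 0 + d * 1 = d := by ring
      rw [e0, e1, e2, e4] at k0
      exact sub_eq_zero.1 k0.symm
    have f0 := e 0
    have f1 := e 1
    have f2 := e 2
    have g0 : e3 0 = 0 := rfl
    have g1 : e3 1 = 2 := rfl
    have g2 : e3 2 = 4 := rfl
    rw [g0, zero_mul, zero_mul, add_zero, add_zero] at f0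
    rw [g1] at f1
    rw [g2] at f2
    exact ⟨f0, f1, f2⟩
  have key1 : ∀ a b c d : ℤ, HTy a b (7 * c) d → G (a + b) (7 * c + d) = G b d := by
    intro a b c d h
    have h' : HTy a (a + b) (7 * c) (7 * c + d) :=
      mulT h 1 1 0 1 (by norm_num) (by norm_num) (by ring) (by ring) (by ring) (by ring)
    rw [← (key a b c d h).1, (key a (a + b) c (7 * c + d) h').1]
  -- homogeneity
  have hsc : ∀ k p t : ℤ, k ≠ 0 → (p ≠ 0 ∨ t ≠ 0) → G (k * p) (k * t) = G p t :=
    fun k p t hk n => hG.1 k p t hk n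
  have nz : ∀ {p q t u : ℤ}, p * u - q * t ≠ 0 → (p ≠ 0 ∨ t ≠ 0) ∧ (q ≠ 0 ∨ u ≠ 0) := by
    intro p q t u h
    constructor
    · by_contra hcon
      push Not at hcon
      rw [hcon.1, hcon.2] at h
      simp at h
    · by_contra hcon
      push Not at hcon
      rw [hcon.1, hcon.2] at h
      simp at h
  have hneg : ∀ {p t : ℤ}, (p ≠ 0 ∨ t ≠ 0) → G (-p) (-t) = G p t := by
    intro p t n
    have := hsc (-1) p t (by norm_num) n
    rwa [neg_one_mul, neg_one_mul] at this
  -- the four classes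
  have hm : ∀ a b c d : ℤ, HTy a b c d →
      ((c : ZMod 7) = 0 ∨ (c : ZMod 7) - 2 * d = 0 ∨ (c : ZMod 7) - 4 * d = 0 ∨
        (c : ZMod 7) + 2 * d = 0) → G a c = G b d := by
    intro a b c d h hc
    rcases hc with e | e | e | e
    · obtain ⟨c', rfl⟩ := dvd7.2 e
      exact (key a b c' d h).1
    · have : (7 : ℤ) ∣ c - 2 * d := dvd7.2 (by push_cast; exact e)
      obtain ⟨c', hc'⟩ := this
      have k := (key (a - 2 * b) b c' d (mulT h 1 0 (-2) 1 (by norm_num) (by norm_num)
        (by ring) (by ring) (by linear_combination -hc') (by ring))).2.1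
      have g1 : a - 2 * b + 2 * b = a := by ring
      have g2 : 7 * c' + 2 * d = c := by linear_combination -hc'
      rwa [g1, g2] at k
    · have : (7 : ℤ) ∣ c - 4 * d := dvd7.2 (by push_cast; exact e)
      obtain ⟨c', hc'⟩ := this
      have k := (key (a - 4 * b) b c' d (mulT h 1 0 (-4) 1 (by norm_num) (by norm_num)
        (by ring) (by ring) (by linear_combination -hc') (by ring))).2.2
      have g1 : a - 4 * b + 4 * b = a := by ring
      have g2 : 7 * c' + 4 * d = c := by linear_combination -hc'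
      rwa [g1, g2] at k
    · have : (7 : ℤ) ∣ c + 2 * d := dvd7.2 (by push_cast; exact e)
      obtain ⟨c', hc'⟩ := this
      have hh : HTy (a + 2 * b) (-a - b) (7 * c') (-c - d) :=
        mulT h 1 (-1) 2 (-1) (by norm_num) (by norm_num)
          (by ring) (by ring) (by linear_combination -hc') (by ring)
      have k1 := key1 _ _ _ _ hh
      have k2 := (key _ _ _ _ hh).2.1
      have g1 : a + 2 * b + (-a - b) = b := by ring
      have g2 : 7 * c' + (-c - d) = d := by linear_combination -hc'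
      have g3 : a + 2 * b + 2 * (-a - b) = -a := by ring
      have g4 : 7 * c' + 2 * (-c - d) = -c := by linear_combination -hc'
      rw [g1, g2] at k1
      rw [g3, g4, hneg (nz h.det_ne).1] at k2
      rw [k1, k2]
  -- edges `(p q; t u)` with `t` even
  have hev : ∀ p q t u : ℤ, p * u - q * t = 1 → (2 : ℤ) ∣ t → G p t = G q u := by
    intro p q t u h h2
    have hn := nz (p := p) (q := q) (t := t) (u := u) (by rw [h]; exact one_ne_zero)
    rcases cls8 (t : ZMod 7) (u : ZMod 7) with e | e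
    · refine hm p q t u (Or.inl ⟨h, h2⟩) ?_
      exact e
    · have hh : HTy (2 * q) (-p) (2 * u) (-t) :=
        Or.inr ⟨by linear_combination 2 * h, ⟨q, rfl⟩, ⟨u, rfl⟩, (dvd_neg).2 h2⟩
      have k := hm _ _ _ _ hh (by
        push_cast
        rcases e with e | e | e | e
        · exact Or.inl e
        · exact Or.inr (Or.inl (by linear_combination e))
        · exact Or.inr (Or.inr (Or.inl (by linear_combination e)))
        · exact Or.inr (Or.inr (Or.inr (by linear_combination e))))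
      rw [hsc 2 q u (by norm_num) hn.2, hneg hn.1] at k
      exact k.symm
  -- edges with `u` even
  have hev' : ∀ p q t u : ℤ, p * u - q * t = 1 → (2 : ℤ) ∣ u → G p t = G q u := by
    intro p q t u h h2
    have hn := nz (p := p) (q := q) (t := t) (u := u) (by rw [h]; exact one_ne_zero)
    have k := hev q (-p) u (-t) (by linear_combination h) h2
    rw [k, hneg hn.1]
  refine hf R _ G hG.1 fun p q t u h => ?_
  by_cases ht : (2 : ℤ) ∣ t
  · exact hev p q t u (by linear_combination h) ht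
  · by_cases hu : (2 : ℤ) ∣ u
    · exact hev' p q t u (by linear_combination h) hu
    · have htu : (2 : ℤ) ∣ t + u := by omega
      rw [hev' p (p + q) t (t + u) (by linear_combination h) htu]
      exact hev (p + q) q (t + u) u (by linear_combination h) htu

end Pool.Agent.Helper70.TH7
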